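import Pool.Agent.Helper70.BI.T.StT
import Pool.Agent.Helper18.BI.M_X2

/-!
# Project BI, stage 6 (T), module CHT (a chart containing the spine and the fixed points)
-/

set_option autoImplicit false

open scoped Topology unitInterval Manifold ContDiff ComplexConjugate
open Set Pool.Agent.Helper65.Barb Pool.Agent.Helper18.BI

namespace Pool.Agent.Helper70.T

namespace CHT

/-- the fixed points of the rotation -/
def L : Set S4 := {x | x.1 3 = 0 ∧ x.1 4 = 0}

theorem mem_L {x : S4} (h : ∀ θ, spin4 θ x = x) : x ∈ L := by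
  have h1 : turn Real.pi x = x.1 := congrArg Subtype.val (h Real.pi)
  have h3 := congrArg (fun z : EuclideanSpace ℝ (Fin 5) => z 3) h1
  have h4 := congrArg (fun z : EuclideanSpace ℝ (Fin 5) => z 4) h1
  simp only [turn_3, turn_4, Real.cos_pi, Real.sin_pi] at h3 h4
  constructor
  · linarith
  · linarith

theorem continuous_coord (i : Fin 5) : Continuous fun x : S4 => x.1 i :=
  (EuclideanSpace.proj (𝕜 := ℝ) i).continuous.comp continuous_subtype_val

theorem isClosed_L : IsClosed L :=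
  (isClosed_eq (continuous_coord 3) continuous_const).inter
    (isClosed_eq (continuous_coord 4) continuous_const)

/-- moving a point of `L` in the third coordinate -/
noncomputable def mv (x : EuclideanSpace ℝ (Fin 5)) (θ : ℝ) : EuclideanSpace ℝ (Fin 5) :=
  !₂[Real.cos θ * x 0, Real.cos θ * x 1, Real.cos θ * x 2, Real.sin θ, 0]

theorem mv_mem {x : S4} (hx : x ∈ L) (θ : ℝ) :
    mv x.1 θ ∈ Metric.sphere (0 : EuclideanSpace ℝ (Fin 5)) 1 := by
  have h := mem_S4.1 x.2
  rw [hx.1, hx.2] at h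
  rw [mem_S4]
  show (Real.cos θ * x.1 0) ^ 2 + (Real.cos θ * x.1 1) ^ 2 + (Real.cos θ * x.1 2) ^ 2 +
    (Real.sin θ) ^ 2 + 0 ^ 2 = 1
  have h2 := Real.sin_sq_add_cos_sq θ
  linear_combination (Real.cos θ) ^ 2 * h + h2

theorem continuous_mv (x : EuclideanSpace ℝ (Fin 5)) : Continuous (mv x) := by
  unfold mv
  refine (PiLp.continuous_toLp 2 _).comp (continuous_pi fun i => ?_)
  fin_cases i
  · exact Real.continuous_cos.mul continuous_const
  · exact Real.continuous_cos.mul continuous_const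
  · exact Real.continuous_cos.mul continuous_const
  · exact Real.continuous_sin
  · exact continuous_const

theorem mv_zero {x : S4} (hx : x ∈ L) : mv x.1 0 = x.1 := by
  ext i
  fin_cases i
  · show Real.cos 0 * x.1 0 = x.1 0
    rw [Real.cos_zero, one_mul]
  · show Real.cos 0 * x.1 1 = x.1 1
    rw [Real.cos_zero, one_mul]
  · show Real.cos 0 * x.1 2 = x.1 2
    rw [Real.cos_zero, one_mul]
  · show Real.sin 0 = x.1 3
    rw [Real.sin_zero, hx.1]
  · show (0 : ℝ) = x.1 4
    rw [hx.2]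

theorem interior_L : interior L = ∅ := by
  rw [eq_empty_iff_forall_notMem]
  intro x hx
  have hxL : x ∈ L := interior_subset hx
  have hf : Continuous fun θ : ℝ => (⟨mv x.1 θ, mv_mem hxL θ⟩ : S4) :=
    (continuous_mv x.1).subtype_mk _
  have h0 : (⟨mv x.1 0, mv_mem hxL 0⟩ : S4) = x := Subtype.ext (mv_zero hxL)
  have h1 : ∀ᶠ θ in 𝓝 (0 : ℝ), (⟨mv x.1 θ, mv_mem hxL θ⟩ : S4) ∈ interior L := by
    apply hf.continuousAt.eventually
    show ∀ᶠ z in 𝓝 (⟨mv x.1 0, mv_mem hxL 0⟩ : S4), z ∈ interior L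
    rw [h0]
    exact isOpen_interior.mem_nhds hx
  obtain ⟨ε, hε, h2⟩ := Metric.eventually_nhds_iff.1 h1
  set θ : ℝ := min (ε / 2) 1 with hθ
  have t0 : 0 < θ := lt_min (by linarith) one_pos
  have t1 : θ < ε := (min_le_left _ _).trans_lt (by linarith)
  have t2 : θ < Real.pi := (min_le_right _ _).trans_lt (by linarith [Real.pi_gt_three])
  have h3 := interior_subset (h2 (y := θ) (by rw [Real.dist_0_eq_abs, abs_of_pos t0]; exact t1))
  have h4 : Real.sin θ = 0 := h3.1
  exact absurd h4 (Real.sin_pos_of_pos_of_lt_pi t0 t2).ne'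

end CHT

open CHT in
theorem m_CHT (hX2c : Pool.Agent.Helper70.BI.StX2c) (hX3 : StX3) : StCHT := by
  intro B hB
  have hcl := X2.closed_image B hB
  have hint : interior (B '' SP ∪ L) = ∅ := by
    rw [interior_union_isClosed_of_interior_empty hcl interior_L]
    exact X2.interior_image B hB
  obtain ⟨c, hc, hcr⟩ := hX2c (B '' SP ∪ L) (hcl.union isClosed_L).isCompact hint
  have hBE : EmbOn (𝓡 4) B SP :=
    ⟨fun p hp => ⟨B, hB hp, fun q _ => rfl⟩, B.toPartialEquiv.injOn.mono hB⟩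
  obtain ⟨h1, U, hU, hSU, h2⟩ := hX3 (EuclideanSpace ℝ (Fin 4)) (EuclideanSpace ℝ (Fin 4)) (𝓡 4) S4
    c B SP hc hBE (subset_union_left.trans hcr)
  refine ⟨c, fun p => Function.invFun c (B p), U, hc, fun x hx => hcr (Or.inr (mem_L hx)), h1, hU,
    hSU, h2, fun x => ⟨?_, ?_⟩⟩
  · rintro ⟨p, hp, rfl⟩
    exact ⟨p, hp, (h2 p (hSU (Or.inl (Or.inr hp)))).symm⟩
  · rintro ⟨p, hp, he⟩
    refine ⟨p, hp, ?_⟩
    exact hc.2 (mem_univ _) (mem_univ _) ((h2 p (hSU (Or.inl (Or.inr hp)))).trans he)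

end Pool.Agent.Helper70.T
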